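import Pool.Agent.D0H30.QT.Stm

/-! # Decomposition of a tuple -/

set_option autoImplicit false

namespace Pool.Agent.D0H98.QT

open Finset Pool.Agent.D0H30.QT

/-- the largest prime factor, `0` if there is none -/
def Pm (n : ℕ) : ℕ := n.primeFactors.sup id

lemma le_Pm {n p : ℕ} (h : p ∈ n.primeFactors) : p ≤ Pm n := le_sup (f := id) h

lemma Pm_mem {n : ℕ} (h : Pm n ≠ 0) : Pm n ∈ n.primeFactors := by
  have hne : n.primeFactors.Nonempty := by
    by_contra hc
    rw [not_nonempty_iff_eq_empty] at hc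
    apply h
    unfold Pm
    rw [hc]
    rfl
  obtain ⟨p, hp, heq⟩ := exists_mem_eq_sup n.primeFactors hne id
  unfold Pm
  rw [heq]
  exact hp

lemma pr_primeFactors {n : ℕ} (h : Squarefree n) : pr n.primeFactors = n :=
  Nat.prod_primeFactors_of_squarefree h

lemma exists_sorted (f : Fin 4 → ℕ) : ∃ π : Equiv.Perm (Fin 4), f (π 1) ≤ f (π 0) ∧
    f (π 2) ≤ f (π 1) ∧ f (π 3) ≤ f (π 2) := by
  have h := Tuple.monotone_sort f
  refine ⟨Fin.revPerm.trans (Tuple.sort f), ?_, ?_, ?_⟩
  · exact h (by decide : (Fin.rev 1 : Fin 4) ≤ Fin.rev 0)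
  · exact h (by decide : (Fin.rev 2 : Fin 4) ≤ Fin.rev 1)
  · exact h (by decide : (Fin.rev 3 : Fin 4) ≤ Fin.rev 2)

lemma adm_perm {κ : Fin 4 → ℤ} {lam : Fin 4 → Fin 4 → ℤ} {N : ℕ} {D : Fin 4 → ℕ}
    (h : Adm κ lam N D) (π : Equiv.Perm (Fin 4)) :
    Adm (κ ∘ π) (fun a b => lam (π a) (π b)) N (D ∘ π) where
  sq i := h.sq _
  cop i j hij := h.cop _ _ fun he => hij (π.injective he)
  le := by
    have : ∏ i, (D ∘ π) i = ∏ i, D i := Equiv.prod_comp π D
    rw [this]
    exact h.le
  bad i p hp := by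
    obtain ⟨h1, h2, h3⟩ := h.bad (π i) p hp
    exact ⟨h1, fun j => h2 _, fun j l hjl => h3 _ _ fun he => hjl (π.injective he)⟩
  cond i p hp j l hj hl := h.cond (π i) p hp (π j) (π l) (fun he => hj (π.injective he))
    (fun he => hl (π.injective he))

theorem dec : P_DEC := by
  intro k0 κ lam N D hk0 hA hB
  obtain ⟨π, s1, s2, s3⟩ := exists_sorted (fun i => Pm (D i))
  have hA' := adm_perm hA π
  set E : Fin 4 → ℕ := D ∘ π with hE
  have hE' : ∀ i, E i = D (π i) := fun i => rfl
  -- the second component has a large prime factor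
  have hP1 : 2 ^ k0 ≤ Pm (E 1) := by
    obtain ⟨i, j, hij, ⟨p, hp, hpk⟩, ⟨q, hq, hqk⟩⟩ := hB
    have hi : 2 ^ k0 ≤ Pm (D i) := hpk.trans (le_Pm hp)
    have hj : 2 ^ k0 ≤ Pm (D j) := hqk.trans (le_Pm hq)
    have key : ∀ a : Fin 4, a ≠ 0 → Pm (E a) ≤ Pm (E 1) := by
      intro a ha
      fin_cases a
      · exact absurd rfl ha
      · exact le_rfl
      · exact s2
      · exact s3.trans s2
    by_cases h0 : π.symm i = 0
    · have h1 : π.symm j ≠ 0 := by
        intro h1
        apply hij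
        rw [← π.apply_symm_apply i, ← π.apply_symm_apply j, h0, h1]
      have := key _ h1
      rw [hE', π.apply_symm_apply] at this
      exact hj.trans this
    · have := key _ h0
      rw [hE', π.apply_symm_apply] at this
      exact hi.trans this
  set r := Pm (E 1) with hr
  have hr0 : r ≠ 0 := by
    have : 0 < 2 ^ k0 := by positivity
    omega
  have hrm : r ∈ (E 1).primeFactors := Pm_mem hr0
  have hrp : r.Prime := Nat.prime_of_mem_primeFactors hrm
  set k := Nat.log 2 r with hk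
  have hk1 : 2 ^ k ≤ r := Nat.pow_log_le_self 2 hr0
  have hk2 : r < 2 ^ (k + 1) := Nat.lt_pow_succ_log_self (by norm_num) r
  have hkk : k0 ≤ k := by
    rw [hk]
    exact Nat.le_log_of_pow_le (by norm_num) hP1
  have hEpos : ∀ i, 0 < E i := fun i => (hA'.sq i).ne_zero.bot_lt
  have hkN : k ≤ N := by
    have h1 : E 1 ≤ ∏ i, E i :=
      Nat.le_of_dvd (prod_pos fun i _ => hEpos i) (dvd_prod_of_mem E (mem_univ 1))
    have h2 : r ≤ E 1 := Nat.le_of_mem_primeFactors hrm
    have h3 : k < 2 ^ k := Nat.lt_two_pow_self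
    have h4 := hA'.le
    omega
  -- the third component
  obtain ⟨s, j, hs, hjk, hs2⟩ : ∃ s j : ℕ, ((s = 1 ∧ j = 0) ∨ (s.Prime ∧ 2 ^ j ≤ s ∧
      s < 2 ^ (j + 1))) ∧ j ≤ k ∧ (∃ S2 : Finset ℕ, E 2 = s * pr S2 ∧
        S2 ⊆ (E 2).primeFactors ∧ (∀ p ∈ (E 2).primeFactors, p < 2 ^ (j + 1)) ∧
        (∀ p ∈ (E 3).primeFactors, p < 2 ^ (j + 1))) := by
    by_cases h0 : Pm (E 2) = 0
    · have h1 : (E 2).primeFactors = ∅ := by
        by_contra hne
        obtain ⟨p, hp⟩ := nonempty_iff_ne_empty.2 hne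
        have := le_Pm hp
        have := (Nat.prime_of_mem_primeFactors hp).pos
        omega
      have h2 : (E 3).primeFactors = ∅ := by
        by_contra hne
        obtain ⟨p, hp⟩ := nonempty_iff_ne_empty.2 hne
        have h3 := le_Pm hp
        have h4 := (Nat.prime_of_mem_primeFactors hp).pos
        have h5 : Pm (E 3) ≤ Pm (E 2) := s3
        omega
      refine ⟨1, 0, Or.inl ⟨rfl, rfl⟩, Nat.zero_le _, ∅, ?_, empty_subset _, ?_, ?_⟩
      · rw [← pr_primeFactors (hA'.sq 2), h1, one_mul]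
      · rw [h1]; intro p hp; exact absurd hp (notMem_empty _)
      · rw [h2]; intro p hp; exact absurd hp (notMem_empty _)
    · have hm := Pm_mem h0
      have hp := Nat.prime_of_mem_primeFactors hm
      refine ⟨Pm (E 2), Nat.log 2 (Pm (E 2)), Or.inr ⟨hp, Nat.pow_log_le_self 2 h0,
        Nat.lt_pow_succ_log_self (by norm_num) _⟩, Nat.log_mono_right s2,
        (E 2).primeFactors.erase (Pm (E 2)), ?_, erase_subset _ _, ?_, ?_⟩
      · rw [pr, mul_prod_erase _ (fun p => p) hm]
        exact (pr_primeFactors (hA'.sq 2)).symm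
      · intro p hp'
        exact lt_of_le_of_lt (le_Pm hp') (Nat.lt_pow_succ_log_self (by norm_num) _)
      · intro p hp'
        exact lt_of_le_of_lt ((le_Pm hp').trans s3) (Nat.lt_pow_succ_log_self (by norm_num) _)
  obtain ⟨S2, e2, hS2, hS2lt, hS3lt⟩ := hs2
  set S0 := (E 0).primeFactors.filter (fun p => ¬ 2 ^ k ≤ p) with hS0
  set n := pr ((E 0).primeFactors.filter (fun p => 2 ^ k ≤ p)) with hn
  set S1 := (E 1).primeFactors.erase r with hS1
  set S3 := (E 3).primeFactors with hS3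
  have e0 : E 0 = n * pr S0 := by
    rw [hn, hS0]
    unfold pr
    rw [prod_filter_mul_prod_filter_not]
    exact (pr_primeFactors (hA'.sq 0)).symm
  have e1 : E 1 = r * pr S1 := by
    rw [pr, hS1, mul_prod_erase _ (fun p => p) hrm]
    exact (pr_primeFactors (hA'.sq 1)).symm
  have e3 : E 3 = pr S3 := (pr_primeFactors (hA'.sq 3)).symm
  have htup : E = tup ![S0, S1, S2, S3] n r s := by
    funext i
    unfold tup
    fin_cases i
    · exact e0
    · exact e1
    · exact e2
    · exact e3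
  have odd : ∀ i, ∀ p ∈ (E i).primeFactors, p ≠ 2 := fun i p hp => (hA'.bad i p hp).1
  have hsub : ∀ i, (![S0, S1, S2, S3] : Fin 4 → Finset ℕ) i ⊆ (E i).primeFactors := by
    intro i
    fin_cases i
    · exact filter_subset _ _
    · exact erase_subset _ _
    · exact hS2
    · exact subset_rfl
  have opm : ∀ {m p : ℕ}, p.Prime → p ≠ 2 → p < 2 ^ m → p ∈ OP m := by
    intro m p h1 h2 h3
    unfold OP
    rw [mem_filter, mem_range]
    exact ⟨h3, h1, h2⟩
  refine ⟨π, k, j, ![S0, S1, S2, S3], (n, r, s), hkk, hkN, hjk, ?_, ?_, htup⟩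
  · unfold Sys
    rw [mem_filter, Fintype.mem_piFinset]
    constructor
    · intro i
      rw [mem_powerset]
      intro p hp
      have hpf := hsub i hp
      have hpp := Nat.prime_of_mem_primeFactors hpf
      have hp2 := odd i p hpf
      fin_cases i
      · have h1 : p ∈ S0 := hp
        rw [hS0, mem_filter, not_le] at h1
        exact opm hpp hp2 h1.2
      · have h1 : p ≤ r := le_Pm hpf
        exact opm hpp hp2 (lt_of_le_of_lt h1 hk2)
      · exact opm hpp hp2 (hS2lt p hpf)
      · exact opm hpp hp2 (hS3lt p hpf)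
    · intro i l hil
      refine (Nat.Coprime.disjoint_primeFactors (hA'.cop i l hil)).mono ?_ ?_
      · exact hsub i
      · exact hsub l
  · refine ⟨?_, ?_, ⟨hrp, hk1, hk2⟩, hs, ?_⟩
    · -- `2 ≤ n`
      have hP0 : r ≤ Pm (E 0) := s1
      have h1 : Pm (E 0) ∈ (E 0).primeFactors := Pm_mem (by omega)
      have h2 : Pm (E 0) ∈ (E 0).primeFactors.filter (fun p => 2 ^ k ≤ p) := by
        rw [mem_filter]
        exact ⟨h1, hk1.trans hP0⟩
      have h3 : Pm (E 0) ∣ n := dvd_prod_of_mem (fun p => p) h2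
      have h4 : 0 < n := by
        rw [hn]
        unfold pr
        exact prod_pos fun p hp => (Nat.prime_of_mem_primeFactors (mem_filter.1 hp).1).pos
      exact (Nat.prime_of_mem_primeFactors h1).two_le.trans (Nat.le_of_dvd h4 h3)
    · intro q hq hqn
      have h1 : q ∣ ∏ p ∈ (E 0).primeFactors.filter (fun p => 2 ^ k ≤ p), p := hqn
      obtain ⟨p, hp, hqp⟩ := (hq.prime.dvd_finsetProd_iff _).1 h1
      rw [mem_filter] at hp
      have h2 := (Nat.prime_dvd_prime_iff_eq hq (Nat.prime_of_mem_primeFactors hp.1)).1 hqp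
      rw [h2]
      exact hp.2
    · simp only
      rw [← htup]
      exact hA'

end Pool.Agent.D0H98.QT
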