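import Pool.Agent.D0H30.QT.Stm

/-! # Few tuples have two components with large prime factors -/

set_option autoImplicit false

namespace Pool.Agent.D0H98.QT

open Finset Pool.Agent.D0H30.QT

lemma pr_empty : pr ∅ = 1 := by simp [pr]

lemma M1_lt {j : ℕ} {S : Fin 4 → Finset ℕ} {p : ℕ} (hp : p ∈ M1 j S) : p < 2 ^ (j + 1) := by
  classical
  unfold M1 at hp
  split_ifs at hp with h
  · rw [mem_filter] at hp
    have h1 : (p : ℝ) ≤ 2 ^ ((j : ℝ) ^ (63 / 64 : ℝ)) := hp.2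
    have h2 : (j : ℝ) ^ (63 / 64 : ℝ) ≤ j := by
      rcases Nat.eq_zero_or_pos j with h0 | h0
      · rw [h0]; norm_num
      · have : (1 : ℝ) ≤ j := by exact_mod_cast h0
        calc (j : ℝ) ^ (63 / 64 : ℝ) ≤ (j : ℝ) ^ (1 : ℝ) :=
              Real.rpow_le_rpow_of_exponent_le this (by norm_num)
          _ = j := Real.rpow_one _
    have h3 : (p : ℝ) ≤ (2 : ℝ) ^ (j : ℝ) := h1.trans
      (Real.rpow_le_rpow_of_exponent_le (by norm_num) h2)
    rw [Real.rpow_natCast] at h3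
    have h4 : p ≤ 2 ^ j := by exact_mod_cast h3
    have h5 : 2 ^ j < 2 ^ (j + 1) := Nat.pow_lt_pow_right (by norm_num) (by omega)
    omega
  · exact absurd hp (notMem_empty _)

lemma M2_ge {k j : ℕ} {S : Fin 4 → Finset ℕ} {p : ℕ} (hp : p ∈ M2 k j S) : 2 ^ (j + 1) ≤ p := by
  classical
  unfold M2 at hp
  split_ifs at hp with h
  · rw [mem_filter] at hp
    exact hp.2.1
  · exact absurd hp (notMem_empty _)

lemma tail_small {f : ℕ → ℝ} (hf0 : ∀ n, 0 ≤ f n) (hf : Summable f) {δ : ℝ} (hδ : 0 < δ) :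
    ∃ k0 : ℕ, 1 ≤ k0 ∧ ∀ N : ℕ, ∑ k ∈ Icc k0 N, f k ≤ δ := by
  have h := tendsto_sum_nat_add f
  obtain ⟨k0, hk0⟩ := ((h.eventually (gt_mem_nhds hδ)).and (Filter.eventually_ge_atTop 1)).exists
  refine ⟨k0, hk0.2, fun N => ?_⟩
  have h1 : ∑ k ∈ Icc k0 N, f k ≤ ∑' k, f (k + k0) := by
    have h2 : Icc k0 N = Ico k0 (N + 1) := by
      ext x; rw [mem_Icc, mem_Ico]; omega
    rw [h2, Finset.sum_Ico_eq_sum_range]
    have h3 : ∑ i ∈ range (N + 1 - k0), f (k0 + i) = ∑ i ∈ range (N + 1 - k0), f (i + k0) :=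
      sum_congr rfl fun i _ => by rw [add_comm]
    rw [h3]
    exact Summable.sum_le_tsum _ (fun i _ => hf0 _) ((summable_nat_add_iff k0).2 hf)
  exact h1.trans hk0.1.le

theorem eng (hB : P_BLK) (hS : P_SUM) (hD : P_DEC) : P_ENG := by
  classical
  obtain ⟨C1, hC1, hB⟩ := hB
  obtain ⟨C2, hC2, hS⟩ := hS
  intro ε hε
  have sj : Summable (fun j : ℕ => ((j : ℝ) + 1) ^ (-(17 / 16) : ℝ)) := by
    have h1 : Summable (fun j : ℕ => (j : ℝ) ^ (-(17 / 16) : ℝ)) :=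
      Real.summable_nat_rpow.2 (by norm_num)
    have := (summable_nat_add_iff 1).2 h1
    simpa using this
  have sk : Summable (fun k : ℕ => ((k : ℝ) + 1) ^ (-(39 / 32) : ℝ)) := by
    have h1 : Summable (fun j : ℕ => (j : ℝ) ^ (-(39 / 32) : ℝ)) :=
      Real.summable_nat_rpow.2 (by norm_num)
    have := (summable_nat_add_iff 1).2 h1
    simpa using this
  set A : ℝ := ∑' j : ℕ, ((j : ℝ) + 1) ^ (-(17 / 16) : ℝ) with hA
  have hA0 : 0 ≤ A := tsum_nonneg fun j => by positivity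
  set c : ℝ := 24 * (C1 * C2 * (A + 1)) with hc
  have hc0 : 0 < c := by positivity
  obtain ⟨k0, hk0, htail⟩ := tail_small (f := fun k : ℕ => ((k : ℝ) + 1) ^ (-(39 / 32) : ℝ))
    (fun k => by positivity) sk (δ := ε / c) (by positivity)
  refine ⟨k0, hk0, ?_⟩
  intro κ lam N
  set T : Equiv.Perm (Fin 4) → ℕ → ℕ → (Fin 4 → Finset ℕ) → Set (Fin 4 → ℕ) := fun π k j S =>
    (fun t : ℕ × ℕ × ℕ => (tup S t.1 t.2.1 t.2.2) ∘ π.symm) ''
      Blk (κ ∘ π) (fun a b => lam (π a) (π b)) N k j S with hT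
  have hsub : {D : Fin 4 → ℕ | Adm κ lam N D ∧ Big k0 D} ⊆
      ⋃ π ∈ (univ : Finset (Equiv.Perm (Fin 4))), ⋃ k ∈ Icc k0 N, ⋃ j ∈ range (k + 1),
        ⋃ S ∈ Sys k j, T π k j S := by
    rintro D ⟨hAd, hBig⟩
    obtain ⟨π, k, j, S, t, h1, h2, h3, h4, h5, h6⟩ := hD k0 κ lam N D hk0 hAd hBig
    simp only [Set.mem_iUnion]
    refine ⟨π, mem_univ _, k, mem_Icc.2 ⟨h1, h2⟩, j, mem_range.2 (by omega), S, h4, t, h5, ?_⟩
    simp only
    rw [← h6]
    funext i
    simp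
  have hblk : ∀ π : Equiv.Perm (Fin 4), ∀ k ∈ Icc k0 N, ∀ j ∈ range (k + 1), ∀ S ∈ Sys k j,
      (T π k j S).Finite ∧ ((T π k j S).ncard : ℝ) ≤ C1 * N / ((k + 1) ^ 2 * (j + 1)) *
        ((∏ p ∈ M1 j S, (gp p)⁻¹ ^ 2) * (∏ p ∈ M2 k j S, (gp p)⁻¹) / ∏ i, (pr (S i) : ℝ)) := by
    intro π k hk j hj S hSs
    rw [mem_Icc] at hk
    rw [mem_range] at hj
    have hprime : ∀ i, ∀ p ∈ S i, p.Prime := by
      intro i p hp
      unfold Sys at hSs
      rw [mem_filter, Fintype.mem_piFinset] at hSs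
      have h1 := (mem_powerset.1 (hSs.1 i)) hp
      have h2 : ∀ m, p ∈ OP m → p.Prime := fun m hm => by
        unfold OP at hm
        exact (mem_filter.1 hm).2.1
      unfold rg at h1
      fin_cases i
      · exact h2 _ h1
      · exact h2 _ h1
      · exact h2 _ h1
      · exact h2 _ h1
    have hdis : Disjoint (M1 j S) (M2 k j S) := by
      rw [disjoint_left]
      intro p h1 h2
      have := M1_lt h1
      have := M2_ge h2
      omega
    have hM1s : M1 j S ⊆ S 0 ∪ S 1 ∪ S 2 ∪ S 3 := by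
      unfold M1
      split_ifs
      · exact filter_subset _ _
      · exact empty_subset _
    have hM2s : M2 k j S ⊆ S 0 ∪ S 1 := by
      unfold M2
      split_ifs
      · exact filter_subset _ _
      · exact empty_subset _
    have hM1p : pr (M1 j S) ^ 8 ≤ 2 ^ j := by
      unfold M1
      split_ifs with h
      · exact h
      · rw [pr_empty, one_pow]; exact Nat.one_le_two_pow
    have hM2p : pr (M2 k j S) ^ 8 ≤ 2 ^ k := by
      unfold M2
      split_ifs with h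
      · exact h
      · rw [pr_empty, one_pow]; exact Nat.one_le_two_pow
    obtain ⟨f1, f2⟩ := hB (κ ∘ π) (fun a b => lam (π a) (π b)) N k j S (M1 j S) (M2 k j S)
      (by omega) (by omega) hprime hdis hM1s hM2s hM1p hM2p
    refine ⟨f1.image _, ?_⟩
    have h1 : ((T π k j S).ncard : ℝ) ≤
        ((Blk (κ ∘ π) (fun a b => lam (π a) (π b)) N k j S).ncard : ℝ) := by
      exact_mod_cast Set.ncard_image_le f1
    refine (h1.trans f2).trans (le_of_eq ?_)
    have hpr : (∏ i, (pr (S i) : ℝ)) ≠ 0 := by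
      refine prod_ne_zero_iff.2 fun i _ => ?_
      have : 0 < pr (S i) := prod_pos fun p hp => (hprime i p hp).pos
      positivity
    field_simp
  have hfin : (⋃ π ∈ (univ : Finset (Equiv.Perm (Fin 4))), ⋃ k ∈ Icc k0 N, ⋃ j ∈ range (k + 1),
        ⋃ S ∈ Sys k j, T π k j S).Finite := by
    refine Set.Finite.biUnion (finite_toSet _) fun π _ => ?_
    refine Set.Finite.biUnion (finite_toSet _) fun k hk => ?_
    refine Set.Finite.biUnion (finite_toSet _) fun j hj => ?_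
    exact Set.Finite.biUnion (finite_toSet _) fun S hSs => (hblk π k hk j hj S hSs).1
  refine ⟨hfin.subset hsub, ?_⟩
  have h1 : ({D : Fin 4 → ℕ | Adm κ lam N D ∧ Big k0 D}.ncard : ℝ) ≤
      ∑ π : Equiv.Perm (Fin 4), ∑ k ∈ Icc k0 N, ∑ j ∈ range (k + 1), ∑ S ∈ Sys k j,
        ((T π k j S).ncard : ℝ) := by
    have h2 := Set.ncard_le_ncard hsub hfin
    have h3 : (⋃ π ∈ (univ : Finset (Equiv.Perm (Fin 4))), ⋃ k ∈ Icc k0 N, ⋃ j ∈ range (k + 1),
        ⋃ S ∈ Sys k j, T π k j S).ncard ≤ ∑ π : Equiv.Perm (Fin 4), ∑ k ∈ Icc k0 N,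
          ∑ j ∈ range (k + 1), ∑ S ∈ Sys k j, (T π k j S).ncard := by
      refine (Finset.set_ncard_biUnion_le _ _).trans (sum_le_sum fun π _ => ?_)
      refine (Finset.set_ncard_biUnion_le _ _).trans (sum_le_sum fun k _ => ?_)
      refine (Finset.set_ncard_biUnion_le _ _).trans (sum_le_sum fun j _ => ?_)
      exact Finset.set_ncard_biUnion_le _ _
    exact_mod_cast h2.trans h3
  refine h1.trans ?_
  have hNr : (0 : ℝ) ≤ N := Nat.cast_nonneg N
  have h2 : ∀ π : Equiv.Perm (Fin 4), ∑ k ∈ Icc k0 N, ∑ j ∈ range (k + 1), ∑ S ∈ Sys k j,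
      ((T π k j S).ncard : ℝ) ≤ C1 * C2 * N * (A + 1) * (ε / c) := by
    intro π
    have h3 : ∀ k ∈ Icc k0 N, ∑ j ∈ range (k + 1), ∑ S ∈ Sys k j, ((T π k j S).ncard : ℝ) ≤
        C1 * C2 * N * (A + 1) * ((k : ℝ) + 1) ^ (-(39 / 32) : ℝ) := by
      intro k hk
      have h4 : ∀ j ∈ range (k + 1), ∑ S ∈ Sys k j, ((T π k j S).ncard : ℝ) ≤
          C1 * C2 * N * ((k : ℝ) + 1) ^ (-(39 / 32) : ℝ) * ((j : ℝ) + 1) ^ (-(17 / 16) : ℝ) := by
        intro j hj
        have hk1 : 1 ≤ k := by have := mem_Icc.1 hk; omega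
        have hj1 : j ≤ k := by have := mem_range.1 hj; omega
        calc ∑ S ∈ Sys k j, ((T π k j S).ncard : ℝ) ≤
            ∑ S ∈ Sys k j, C1 * N / ((k + 1) ^ 2 * (j + 1)) *
              ((∏ p ∈ M1 j S, (gp p)⁻¹ ^ 2) * (∏ p ∈ M2 k j S, (gp p)⁻¹) /
                ∏ i, (pr (S i) : ℝ)) := sum_le_sum fun S hSs => (hblk π k hk j hj S hSs).2
          _ = C1 * N / ((k + 1) ^ 2 * (j + 1)) * ∑ S ∈ Sys k j,
              ((∏ p ∈ M1 j S, (gp p)⁻¹ ^ 2) * (∏ p ∈ M2 k j S, (gp p)⁻¹) /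
                ∏ i, (pr (S i) : ℝ)) := by rw [mul_sum]
          _ ≤ C1 * N / ((k + 1) ^ 2 * (j + 1)) *
              (C2 * (k + 1 : ℝ) ^ (25 / 32 : ℝ) * (j + 1 : ℝ) ^ (-(1 / 16) : ℝ)) := by
              refine mul_le_mul_of_nonneg_left (hS k j hk1 hj1) (by positivity)
          _ = _ := by
              have hk0' : (0 : ℝ) < (k : ℝ) + 1 := by positivity
              have hj0' : (0 : ℝ) < (j : ℝ) + 1 := by positivity
              have e1 : ((k : ℝ) + 1) ^ (25 / 32 : ℝ) = ((k : ℝ) + 1) ^ (-(39 / 32) : ℝ) *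
                  ((k : ℝ) + 1) ^ 2 := by
                rw [← Real.rpow_natCast, ← Real.rpow_add hk0']; norm_num
              have e2 : ((j : ℝ) + 1) ^ (-(1 / 16) : ℝ) = ((j : ℝ) + 1) ^ (-(17 / 16) : ℝ) *
                  ((j : ℝ) + 1) := by
                conv_rhs => rw [← Real.rpow_one ((j : ℝ) + 1), ← Real.rpow_mul hj0'.le,
                  ← Real.rpow_add hj0']
                norm_num
              rw [e1, e2]
              field_simp
      calc ∑ j ∈ range (k + 1), ∑ S ∈ Sys k j, ((T π k j S).ncard : ℝ) ≤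
          ∑ j ∈ range (k + 1), C1 * C2 * N * ((k : ℝ) + 1) ^ (-(39 / 32) : ℝ) *
            ((j : ℝ) + 1) ^ (-(17 / 16) : ℝ) := sum_le_sum h4
        _ = C1 * C2 * N * ((k : ℝ) + 1) ^ (-(39 / 32) : ℝ) *
            ∑ j ∈ range (k + 1), ((j : ℝ) + 1) ^ (-(17 / 16) : ℝ) := by rw [mul_sum]
        _ ≤ C1 * C2 * N * ((k : ℝ) + 1) ^ (-(39 / 32) : ℝ) * (A + 1) := by
            have h5 : ∑ j ∈ range (k + 1), ((j : ℝ) + 1) ^ (-(17 / 16) : ℝ) ≤ A :=
              Summable.sum_le_tsum _ (fun i _ => by positivity) sj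
            refine mul_le_mul_of_nonneg_left (by linarith) (by positivity)
        _ = _ := by ring
    calc ∑ k ∈ Icc k0 N, ∑ j ∈ range (k + 1), ∑ S ∈ Sys k j, ((T π k j S).ncard : ℝ) ≤
        ∑ k ∈ Icc k0 N, C1 * C2 * N * (A + 1) * ((k : ℝ) + 1) ^ (-(39 / 32) : ℝ) := sum_le_sum h3
      _ = C1 * C2 * N * (A + 1) * ∑ k ∈ Icc k0 N, ((k : ℝ) + 1) ^ (-(39 / 32) : ℝ) := by
          rw [mul_sum]
      _ ≤ C1 * C2 * N * (A + 1) * (ε / c) := by
          refine mul_le_mul_of_nonneg_left (htail N) (by positivity)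
  calc ∑ π : Equiv.Perm (Fin 4), ∑ k ∈ Icc k0 N, ∑ j ∈ range (k + 1), ∑ S ∈ Sys k j,
        ((T π k j S).ncard : ℝ) ≤ ∑ _π : Equiv.Perm (Fin 4), C1 * C2 * N * (A + 1) * (ε / c) :=
        sum_le_sum fun π _ => h2 π
    _ = 24 * (C1 * C2 * N * (A + 1) * (ε / c)) := by
        rw [sum_const, card_univ, Fintype.card_perm, Fintype.card_fin, nsmul_eq_mul]
        norm_num [Nat.factorial]
    _ = ε * N := by
        rw [hc]
        have : (C1 * C2 * (A + 1)) ≠ 0 := by positivity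
        field_simp

end Pool.Agent.D0H98.QT
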