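import Pool.Agent.D0H30.QT.Stm
import Pool.Agent.Y405.CQ.MER

/-! # Mertens' theorem -/

set_option autoImplicit false

namespace Pool.Agent.D0H98.QT

open Finset Pool.Agent.D0H30.QT

lemma loglog {s : ℝ} (hs : 2 ≤ s) :
    |Real.log (Real.log (⌊(2 : ℝ) ^ s⌋₊ : ℝ)) - Real.log (s + 1)| ≤ 3 := by
  set x : ℕ := ⌊(2 : ℝ) ^ s⌋₊ with hx
  have h2 : (0.6931471803 : ℝ) < Real.log 2 := Real.log_two_gt_d9
  have h3 : Real.log 2 < 0.6931471808 := Real.log_two_lt_d9
  have hpos : (0 : ℝ) ≤ (2 : ℝ) ^ s := by positivity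
  have h4 : (4 : ℝ) ≤ (2 : ℝ) ^ s := by
    calc (4 : ℝ) = (2 : ℝ) ^ (2 : ℝ) := by norm_num
      _ ≤ (2 : ℝ) ^ s := Real.rpow_le_rpow_of_exponent_le (by norm_num) hs
  have hx1 : (x : ℝ) ≤ (2 : ℝ) ^ s := Nat.floor_le hpos
  have hx2 : (2 : ℝ) ^ s / 2 ≤ x := by
    have := Nat.lt_floor_add_one ((2 : ℝ) ^ s)
    rw [← hx] at this
    linarith
  have hx0 : (0 : ℝ) < x := by linarith
  have l1 : Real.log x ≤ s * Real.log 2 := by
    have := Real.log_le_log hx0 hx1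
    rwa [Real.log_rpow (by norm_num)] at this
  have l2 : (s - 1) * Real.log 2 ≤ Real.log x := by
    have := Real.log_le_log (by positivity) hx2
    rw [Real.log_div (by positivity) (by norm_num), Real.log_rpow (by norm_num)] at this
    linarith
  have l2' : (s + 1) / 6 ≤ Real.log x := by
    refine le_trans ?_ l2
    nlinarith
  have l1' : Real.log x ≤ s + 1 := by nlinarith
  have hlx : 0 < Real.log x := by linarith
  have hs1 : 0 < s + 1 := by linarith
  rw [abs_le]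
  constructor
  · have m1 := Real.log_le_log (by positivity) l2'
    rw [Real.log_div hs1.ne' (by norm_num)] at m1
    have m2 : Real.log 6 ≤ 3 := by
      rw [Real.log_le_iff_le_exp (by norm_num)]
      have := Real.add_one_le_exp (1 : ℝ)
      have e1 : Real.exp 3 = Real.exp 1 ^ 3 := by rw [← Real.exp_nat_mul]; norm_num
      rw [e1]
      have : (2 : ℝ) ^ 3 ≤ Real.exp 1 ^ 3 := pow_le_pow_left₀ (by norm_num) (by linarith) 3
      linarith
    linarith
  · have m1 := Real.log_le_log hlx l1'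
    linarith

lemma mert_aux (q a : ℕ) (c : ℝ) (hq : 1 ≤ q) (ha : a < q) (hc : a.Coprime q)
    (htot : 1 / (Nat.totient q : ℝ) = c) (hc0 : 0 ≤ c) (hc1 : c ≤ 1) :
    ∃ C : ℝ, 0 ≤ C ∧ ∀ s : ℝ, 0 ≤ s →
      |∑ p ∈ (Icc 1 ⌊(2 : ℝ) ^ s⌋₊).filter (fun p => p.Prime ∧ p % q = a), (1 : ℝ) / p -
        c * Real.log (s + 1)| ≤ C := by
  obtain ⟨C, hC0, hC⟩ := Pool.Agent.Y405.CQ.mertens_ap q hq a ha hc
  refine ⟨C + 10, by positivity, ?_⟩
  intro s hs
  rcases le_total 2 s with h | h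
  · have h4 : (4 : ℝ) ≤ (2 : ℝ) ^ s := by
      calc (4 : ℝ) = (2 : ℝ) ^ (2 : ℝ) := by norm_num
        _ ≤ (2 : ℝ) ^ s := Real.rpow_le_rpow_of_exponent_le (by norm_num) h
    have h3 : 3 ≤ ⌊(2 : ℝ) ^ s⌋₊ := by
      refine Nat.le_floor ?_
      push_cast
      linarith
    have h5 := hC _ h3
    rw [htot] at h5
    have h6 := loglog h
    rw [abs_le] at h5 h6 ⊢
    constructor <;> nlinarith [h5.1, h5.2, h6.1, h6.2]
  · -- `s ≤ 2`
    have h4 : (2 : ℝ) ^ s ≤ 4 := by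
      calc (2 : ℝ) ^ s ≤ (2 : ℝ) ^ (2 : ℝ) := Real.rpow_le_rpow_of_exponent_le (by norm_num) h
        _ = 4 := by norm_num
    have h5 : ⌊(2 : ℝ) ^ s⌋₊ ≤ 4 := by
      have := Nat.floor_mono h4
      simpa using this
    have h6 : ∑ p ∈ (Icc 1 ⌊(2 : ℝ) ^ s⌋₊).filter (fun p => p.Prime ∧ p % q = a), (1 : ℝ) / p ≤ 4 := by
      calc ∑ p ∈ (Icc 1 ⌊(2 : ℝ) ^ s⌋₊).filter (fun p => p.Prime ∧ p % q = a), (1 : ℝ) / p ≤
          ∑ p ∈ Icc (1 : ℕ) 4, (1 : ℝ) / (p : ℝ) := by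
            refine sum_le_sum_of_subset_of_nonneg ?_ (fun p _ _ => by positivity)
            refine (filter_subset _ _).trans (Icc_subset_Icc_right h5)
        _ ≤ ∑ _p ∈ Icc (1 : ℕ) 4, (1 : ℝ) := by
            refine sum_le_sum fun p hp => ?_
            have : (1 : ℝ) ≤ p := by exact_mod_cast (mem_Icc.1 hp).1
            rw [div_le_one (by linarith)]
            exact this
        _ = 4 := by simp
    have h7 : 0 ≤ ∑ p ∈ (Icc 1 ⌊(2 : ℝ) ^ s⌋₊).filter (fun p => p.Prime ∧ p % q = a), (1 : ℝ) / p :=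
      sum_nonneg fun p _ => by positivity
    have h8 : 0 ≤ Real.log (s + 1) := Real.log_nonneg (by linarith)
    have h9 : Real.log (s + 1) ≤ 3 := by
      have := Real.log_le_sub_one_of_pos (show 0 < s + 1 by linarith)
      linarith
    have h10 : c * Real.log (s + 1) ≤ 3 := by nlinarith
    have h11 : 0 ≤ c * Real.log (s + 1) := by positivity
    rw [abs_le]
    constructor <;> linarith

theorem mert : P_MERT := by
  obtain ⟨C1, h1, hC1⟩ := mert_aux 1 0 1 le_rfl (by norm_num) (by decide) (by simp) zero_le_one le_rfl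
  obtain ⟨C2, h2, hC2⟩ := mert_aux 4 1 (1 / 2) (by norm_num) (by norm_num) (by decide)
    (by rw [show Nat.totient 4 = 2 from by decide]; norm_num) (by norm_num) (by norm_num)
  refine ⟨C1 + C2, by positivity, fun s hs => ⟨?_, ?_⟩⟩
  · have h := hC1 s hs
    rw [one_mul] at h
    have e : (Icc 1 ⌊(2 : ℝ) ^ s⌋₊).filter (fun p => p.Prime ∧ p % 1 = 0) =
        (Icc 1 ⌊(2 : ℝ) ^ s⌋₊).filter Nat.Prime := by
      ext p
      simp [Nat.mod_one]
    rw [e] at h
    linarith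
  · have h := hC2 s hs
    linarith

end Pool.Agent.D0H98.QT
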